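import Mathlib
import Pool.Agent.H781R2.Ex16
import Pool.Agent.H781R2.Ker9

/-!
# The sharp kernel inequality behind the maximal gradient of the torsion function

Extracted from the proof of `Pool.Agent.H781R2.Ex15` (starting files): the kernel inequality holds
with the parameters which give the exact constant.
-/

set_option autoImplicit false

open MeasureTheory Set Topology Filter
open scoped ENNReal Real

namespace Pool.Agent.W39.TG

open H781

/-- The values of the gradient of torsion functions (`Δ u = -1`) of convex domains of area one. -/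
def GradVal (m : ℝ) : Prop :=
  ∃ (Ω : Set ℂ) (u : ℂ → ℝ) (x : ℂ), IsOpen Ω ∧ Convex ℝ Ω ∧ Bornology.IsBounded Ω ∧
    volume Ω = 1 ∧ ContinuousOn u (closure Ω) ∧ ContDiffOn ℝ 2 u Ω ∧
    (∀ x ∈ Ω, Laplacian.laplacian u x = -1) ∧ (∀ x ∈ frontier Ω, u x = 0) ∧ x ∈ Ω ∧
    m = ‖fderiv ℝ u x‖

theorem ker_exact : ∃ lam κ : ℝ, 0 < lam ∧ 0 < κ ∧ KerOK lam κ ∧ 0.35812 < √(κ / lam) ∧
    ∀ ε : ℝ, 0 < ε → ∃ m, GradVal m ∧ √(κ / lam) - ε < m := by
  obtain ⟨α, hα, hgood⟩ := exists_good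
  obtain ⟨ρ, hρ, hl⟩ := hgood 1 le_rfl
  have hpi := Real.pi_pos
  set m := (en α ρ ρ).toReal with hm
  have hm1 : m < 1 / (2 * α) := by linarith
  have hglob : ∀ (R : ℝ) (σ : Measure ℝ), IsProbabilityMeasure σ → σ (Icc 0 R)ᶜ = 0 →
      ENNReal.ofReal m ≤ en α σ σ := fun R σ h1 h2 =>
    (ENNReal.ofReal_toReal_le).trans (glob hgood hρ h1 h2)
  have hK := kerOK_of_glob hα hm1 hglob
  obtain ⟨r₁, ρ₁, hr, hE⟩ := hρ.toEL hl
  have e : (1 / (2 * α) - m) / 4 / (2 / (π * α)) = π * (α / r₁) * ((1 / (2 * α) - m) * r₁) / 8 := by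
    field_simp
    ring
  have hup : ∀ (Ω : Set ℂ) (u : ℂ → ℝ), IsOpen Ω → Convex ℝ Ω → Bornology.IsBounded Ω →
      ContinuousOn u (closure Ω) →
      ContDiffOn ℝ 2 u Ω → (∀ x ∈ Ω, Laplacian.laplacian u x = -1) → (∀ x ∈ frontier Ω, u x = 0) →
      ∀ x ∈ Ω, ‖fderiv ℝ u x‖ ≤ √(π * (α / r₁) * ((1 / (2 * α) - m) * r₁) / 8) *
        √(volume Ω).toReal := by
    intro Ω u h1 h2 h3 h4 h5 h6 h7 x hx
    have h8 := upper_gen (by positivity) (by linarith) hK h1 h2 h3 h4 h5 h6 h7 hx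
    rw [e] at h8
    exact h8
  have hκ := kappa_ge hE hup
  refine ⟨2 / (π * α), (1 / (2 * α) - m) / 4, by positivity, by linarith, hK, ?_, ?_⟩
  · rw [e]
    obtain ⟨Ω, u, x, ho, hcv, hb, hv, g1, g2, g3, g4, hx, hg⟩ :=
      lower_gen s0_adm (ε := a0 2 s0 / s0 0 / √(VV 2 s0) - 0.35812) (by linarith [lower_num])
    have h3 := hup Ω u ho hcv hb g1 g2 g3 g4 x hx
    rw [hv, ENNReal.toReal_one, Real.sqrt_one, mul_one] at h3
    linarith
  · intro ε hε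
    rw [e]
    obtain ⟨Ω, u, x, ho, hcv, hb, hv, h1, h2, h3, h4, hx, hg⟩ := hE.lower hκ hε
    exact ⟨_, ⟨Ω, u, x, ho, hcv, hb, hv, h1, h2, h3, h4, hx, rfl⟩, hg⟩

end Pool.Agent.W39.TG
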