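import Mathlib
import Pool.Agent.H781R2.Up

/-!
# Boundary configurations which nearly realise the gradient of the torsion function

`near_max` is a variant of `H781.step_bound`, `H781.upper_gen` (starting files, the proof is copied):
if the gradient at `x` is larger than `M / 2` then some boundary point of some smooth
approximation of the domain, as close to the domain as wanted, has a gradient larger than `M / 2`.
-/

set_option autoImplicit false

open Complex MeasureTheory Set Filter Topology Metric InnerProductSpace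
open scoped ENNReal Real ComplexConjugate

namespace Pool.Agent.W39.TG

open H781

theorem step_gen {Ω : Set ℂ}
    (hopen : IsOpen Ω) (hconv : Convex ℝ Ω) {u : ℂ → ℝ}
    (hsm : ContDiffOn ℝ 2 u Ω) (hlap : ∀ x ∈ Ω, Laplacian.laplacian u x = -1)
    {f φ : ℂ → ℂ} (hf : DifferentiableOn ℂ f (ball 0 1))
    (hfm : MapsTo f (ball 0 1) Ω) (hφ : DifferentiableOn ℂ φ Ω) (hφm : MapsTo φ Ω (ball 0 1))
    (hfφ : ∀ z ∈ Ω, f (φ z) = z) (hφf : ∀ z ∈ ball (0 : ℂ) 1, φ (f z) = z) {r : ℝ} (hr0 : 0 < r)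
    (hr : r < 1) {ε : ℝ} (hε : 0 < ε) (hu : ∀ z : ℂ, ‖z‖ = r → |u (f z)| ≤ ε) {M : ℝ} (hM0 : 0 ≤ M)
    (hlt : M / 2 + ε * (Real.exp 1 * Real.exp 1) / (r * ‖deriv f 0‖) < ‖fderiv ℝ u (f 0)‖) :
    ∃ (ρ : ℝ) (F Φ : ℂ → ℂ) (c0 : ℝ) (z0 : ℂ), 1 < ρ ∧ DifferentiableOn ℂ F (ball 0 ρ) ∧
      InjOn F (ball 0 ρ) ∧ IsOpen (F '' ball 0 1) ∧ Convex ℝ (F '' ball 0 1) ∧
      F '' ball 0 1 = f '' ball 0 r ∧ DifferentiableOn ℂ Φ (ball 0 ρ) ∧
      (∀ z : ℂ, ‖z‖ = 1 → 2 * (Φ z).re - c0 = ‖F z‖ ^ 2) ∧ ‖z0‖ = 1 ∧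
      M < ‖deriv Φ z0 / deriv F z0 - conj (F z0)‖ := by
  by_contra hno
  refine absurd hlt (not_lt.2 ?_)
  have hinjf : InjOn f (ball 0 1) := by
    intro a ha b hb hab
    rw [← hφf a ha, ← hφf b hb, hab]
  set R : ℝ := 1 / r with hRdef
  have hR : 1 < R := by rw [hRdef, lt_div_iff₀ hr0]; linarith
  have hrc : (r : ℂ) ≠ 0 := by exact_mod_cast hr0.ne'
  have hscale : ∀ ρ : ℝ, (fun z : ℂ => (r : ℂ) * z) '' ball (0 : ℂ) ρ = ball 0 (r * ρ) := by
    intro ρ
    ext w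
    constructor
    · rintro ⟨z, hz, rfl⟩
      rw [mem_ball_zero_iff] at *
      rw [norm_mul, Complex.norm_real, Real.norm_eq_abs, abs_of_pos hr0]
      exact mul_lt_mul_of_pos_left hz hr0
    · intro hw
      refine ⟨(r : ℂ)⁻¹ * w, ?_, by field_simp⟩
      rw [mem_ball_zero_iff] at *
      rw [norm_mul, norm_inv, Complex.norm_real, Real.norm_eq_abs, abs_of_pos hr0, inv_mul_lt_iff₀ hr0]
      exact hw
  have hmaps : MapsTo (fun z : ℂ => (r : ℂ) * z) (ball 0 R) (ball 0 1) := by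
    intro z hz
    have : (fun z : ℂ => (r : ℂ) * z) z ∈ ball (0 : ℂ) (r * R) := by
      rw [← hscale]; exact mem_image_of_mem _ hz
    rw [hRdef, mul_one_div_cancel hr0.ne'] at this
    exact this
  set F : ℂ → ℂ := fun z => f (r * z) with hF
  have hFd : DifferentiableOn ℂ F (ball 0 R) := hf.comp (by fun_prop) hmaps
  have hFinj : InjOn F (ball 0 R) := by
    intro a ha b hb hab
    exact mul_left_cancel₀ hrc (hinjf (hmaps ha) (hmaps hb) hab)
  have hFmaps : MapsTo F (ball 0 R) Ω := fun z hz => hfm (hmaps hz)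
  have hFimg : F '' ball 0 1 = f '' ball 0 r := by
    rw [hF, ← image_image f (fun z : ℂ => (r : ℂ) * z), hscale, mul_one]
  have hFimg' : F '' ball 0 1 = Ω ∩ φ ⁻¹' ball 0 r := by
    rw [hFimg]
    ext w
    constructor
    · rintro ⟨z, hz, rfl⟩
      have hz1 : z ∈ ball (0 : ℂ) 1 := ball_subset_ball hr.le hz
      exact ⟨hfm hz1, by rw [mem_preimage, hφf z hz1]; exact hz⟩
    · rintro ⟨h1, h2⟩
      exact ⟨φ w, h2, hfφ w h1⟩
  have hFopen : IsOpen (F '' ball 0 1) := by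
    rw [hFimg']
    exact hφ.continuousOn.isOpen_inter_preimage hopen isOpen_ball
  have hFconv : Convex ℝ (F '' ball 0 1) := by
    rw [hFimg]
    exact study hconv hf hfm hφ hφm hfφ hφf hr.le
  have hFsub : F '' ball 0 1 ⊆ Ω := by rw [hFimg']; exact inter_subset_left
  obtain ⟨ρ, Φ, c0, hρ1, hρR, hΦ, hΦc⟩ := exists_Phi hR hFd
  have hsubρ : ball (0 : ℂ) ρ ⊆ ball 0 R := ball_subset_ball hρR
  have hD : ∀ z : ℂ, ‖z‖ = 1 → ‖deriv Φ z / deriv F z - conj (F z)‖ ≤ M := by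
    intro z hz
    by_contra hcon
    push Not at hcon
    exact hno ⟨ρ, F, Φ, c0, z, hρ1, hFd.mono hsubρ, hFinj.mono hsubρ, hFopen, hFconv, hFimg, hΦ, hΦc,
      hz, hcon⟩
  have hFne : ∀ z ∈ ball (0 : ℂ) R, deriv F z ≠ 0 := fun z hz =>
    Pool.Agent.Helper469.Univalent.deriv_ne_zero_of_injOn isOpen_ball hFd hFinj hz
  have h0ρ : (0 : ℂ) ∈ ball (0 : ℂ) ρ := mem_ball_self (by linarith)
  have h0R : (0 : ℂ) ∈ ball (0 : ℂ) R := hsubρ h0ρ
  -- maximum principle for D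
  have hD0 : ‖deriv Φ 0 / deriv F 0 - conj (F 0)‖ ≤ M := by
    set D0 := deriv Φ 0 / deriv F 0 - conj (F 0) with hD0
    rcases eq_or_ne D0 0 with h0 | h0
    · rw [h0, norm_zero]; exact hM0
    · set c : ℂ := conj D0 / ‖D0‖ with hc
      have hDn : 0 < ‖D0‖ := norm_pos_iff.2 h0
      have hcn : ‖c‖ = 1 := by
        rw [hc, norm_div, RCLike.norm_conj, Complex.norm_real, Real.norm_eq_abs,
          abs_of_pos hDn, div_self hDn.ne']
      have hBd : DifferentiableOn ℂ (fun z => c * (deriv Φ z / deriv F z) - conj c * F z) (ball 0 ρ) := by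
        refine DifferentiableOn.sub ?_ ((hFd.mono hsubρ).const_mul _)
        refine DifferentiableOn.const_mul ?_ _
        exact (hΦ.deriv isOpen_ball).div ((hFd.deriv isOpen_ball).mono hsubρ) fun z hz => hFne z (hsubρ hz)
      have hBre : ∀ z, (c * (deriv Φ z / deriv F z) - conj c * F z).re =
          (c * (deriv Φ z / deriv F z - conj (F z))).re := by
        intro z
        have : (conj c * F z).re = (c * conj (F z)).re := by
          rw [← Complex.conj_re (conj c * F z)]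
          simp
        rw [mul_sub, sub_re, sub_re, this]
      have h1 := re_max hρ1 hBd (M := M) (by
        intro z hz
        rw [hBre]
        refine (Complex.re_le_norm _).trans ?_
        rw [norm_mul, hcn, one_mul]
        exact hD z hz) 0 (by simp)
      rw [hBre] at h1
      have h2 : c * D0 = ((‖D0‖ : ℝ) : ℂ) := by
        have h3 : conj D0 * D0 = ((‖D0‖ ^ 2 : ℝ) : ℂ) := by
          rw [mul_comm, Complex.mul_conj, Complex.normSq_eq_norm_sq]
        have h4 : ((‖D0‖ : ℝ) : ℂ) ≠ 0 := by exact_mod_cast hDn.ne'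
        rw [hc, div_mul_eq_mul_div, h3]
        push_cast
        field_simp
      rw [← hD0, h2, ofReal_re] at h1
      exact h1
  -- the harmonic part
  set v : ℂ → ℝ := fun w => u w + (1 / 4 : ℝ) * ‖w‖ ^ 2 with hv
  have hvh : ∀ w ∈ Ω, HarmonicAt v w := by
    intro w hw
    have hcd : ∀ y ∈ Ω, ContDiffAt ℝ 2 u y := fun y hy => hsm.contDiffAt (hopen.mem_nhds hy)
    refine ⟨(hcd w hw).add (lap_quarter w).1, ?_⟩
    filter_upwards [hopen.mem_nhds hw] with y hy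
    have := (hcd y hy).laplacian_add (lap_quarter y).1
    have h3 : (fun w => u w + (1 / 4 : ℝ) * ‖w‖ ^ 2) = u + fun z : ℂ => (1 / 4 : ℝ) * ‖z‖ ^ 2 := rfl
    rw [hv, h3, this, hlap y hy, (lap_quarter y).2.1]
    simp
  have hvF : HarmonicOnNhd (fun z => v (F z)) (ball 0 R) := by
    intro z hz
    have hw := hFmaps hz
    obtain ⟨δ, hδ, hball⟩ := Metric.isOpen_iff.1 hopen _ hw
    obtain ⟨k, hk1, hk2⟩ := InnerProductSpace.HarmonicOnNhd.exists_analyticOnNhd_ball_re_eq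
      (f := v) (z := F z) (R := δ) (fun y hy => hvh y (hball hy))
    have hFan : AnalyticAt ℂ F z := hFd.analyticAt (isOpen_ball.mem_nhds hz)
    have h1 : AnalyticAt ℂ (fun y => k (F y)) z := (hk1 (F z) (mem_ball_self hδ)).comp hFan
    have h2 : (fun y => v (F y)) =ᶠ[𝓝 z] fun y => (k (F y)).re := by
      filter_upwards [hFan.continuousAt.preimage_mem_nhds (ball_mem_nhds (F z) hδ)] with y hy
      exact (hk2 hy).symm
    exact (harmonicAt_congr_nhds h2).2 h1.harmonicAt_re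
  obtain ⟨K, hK1, hK2⟩ := InnerProductSpace.HarmonicOnNhd.exists_analyticOnNhd_ball_re_eq hvF
  have hKd : DifferentiableOn ℂ K (ball 0 R) := hK1.differentiableOn
  set H : ℂ → ℂ := fun z => K z - (1 / 2) * Φ z + (c0 / 4 : ℝ) with hH
  have hHd : DifferentiableOn ℂ H (ball 0 ρ) := ((hKd.mono hsubρ).sub (hΦ.const_mul _)).add_const _
  have hHs : ∀ z : ℂ, ‖z‖ = 1 → |(H z).re| ≤ ε := by
    intro z hz
    have h1 : (K z).re = v (F z) := hK2 (sphere_sub hR hz.le)
    have h2 := hΦc z hz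
    have h3 : (H z).re = u (F z) := by
      have h4 : (H z).re = (K z).re - (1 / 2) * (Φ z).re + c0 / 4 := by
        rw [hH]
        simp
      rw [h4, h1, hv]
      simp only []
      rw [← h2]
      ring
    rw [h3]
    exact hu _ (by rw [norm_mul, Complex.norm_real, Real.norm_eq_abs, abs_of_pos hr0, hz, mul_one])
  have hHsmall := grad_small hρ1 hHd hε hHs
  have hK0 : HasDerivAt K (deriv K 0) 0 := (hKd.differentiableAt (isOpen_ball.mem_nhds h0R)).hasDerivAt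
  have hΦ0 : HasDerivAt Φ (deriv Φ 0) 0 := (hΦ.differentiableAt (isOpen_ball.mem_nhds h0ρ)).hasDerivAt
  have hF0 : HasDerivAt F (deriv F 0) 0 := (hFd.differentiableAt (isOpen_ball.mem_nhds h0R)).hasDerivAt
  have hHder : deriv H 0 = deriv K 0 - (1 / 2) * deriv Φ 0 :=
    ((hK0.sub (hΦ0.const_mul _)).add_const _).deriv
  have hFf : F 0 = f 0 := by rw [hF]; simp
  have hFder : deriv F 0 = deriv f 0 * r := by
    have h1 : HasDerivAt f (deriv f 0) ((r : ℂ) * 0) := by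
      rw [mul_zero]
      exact (hf.differentiableAt (isOpen_ball.mem_nhds (mem_ball_self one_pos))).hasDerivAt
    have h2 : HasDerivAt (fun z : ℂ => (r : ℂ) * z) r 0 := by
      simpa using (hasDerivAt_id (0 : ℂ)).const_mul (r : ℂ)
    exact (h1.comp (0 : ℂ) h2).deriv
  -- gradient identity
  have hvd : DifferentiableAt ℝ v (F 0) := (hvh _ (hFmaps h0R)).1.differentiableAt (by norm_num)
  have hgrad1 : ∀ w, fderiv ℝ v (F 0) (deriv F 0 * w) = (deriv K 0 * w).re := by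
    intro w
    have a1 : HasFDerivAt (fun z => v (F z)) ((fderiv ℝ v (F 0)).comp
        ((ContinuousLinearMap.toSpanSingleton ℂ (deriv F 0)).restrictScalars ℝ)) 0 :=
      hvd.hasFDerivAt.comp (0 : ℂ) (hF0.hasFDerivAt.restrictScalars ℝ)
    have a2 : HasFDerivAt (fun z => (K z).re) (Complex.reCLM.comp
        ((ContinuousLinearMap.toSpanSingleton ℂ (deriv K 0)).restrictScalars ℝ)) 0 :=
      Complex.reCLM.hasFDerivAt.comp (0 : ℂ) (hK0.hasFDerivAt.restrictScalars ℝ)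
    have a3 : (fun z => v (F z)) =ᶠ[𝓝 0] fun z => (K z).re := by
      filter_upwards [isOpen_ball.mem_nhds h0R] with z hz
      exact (hK2 hz).symm
    have a4 := (a1.congr_of_eventuallyEq a3.symm).unique a2
    have a5 := DFunLike.congr_fun a4 w
    simp only [ContinuousLinearMap.comp_apply, ContinuousLinearMap.coe_restrictScalars',
      ContinuousLinearMap.toSpanSingleton_apply, smul_eq_mul, Complex.reCLM_apply] at a5
    rw [mul_comm, a5, mul_comm]
  have hgrad2 : ∀ w, fderiv ℝ u (F 0) w =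
      ((deriv K 0 / deriv F 0 - (1 / 2) * conj (F 0)) * w).re := by
    intro w
    have b1 : DifferentiableAt ℝ u (F 0) := (hsm.contDiffAt (hopen.mem_nhds (hFmaps h0R))).differentiableAt (by norm_num)
    have b2 := b1.hasFDerivAt.add (lap_quarter (F 0)).2.2
    have b3 : fderiv ℝ v (F 0) = fderiv ℝ u (F 0) + (1 / 4 : ℝ) • (2 • (innerSL ℝ (F 0))) := b2.fderiv
    have b4 := hgrad1 (w / deriv F 0)
    rw [mul_div_cancel₀ _ (hFne 0 h0R), b3] at b4
    have b5 : ((1 / 4 : ℝ) • (2 • (innerSL ℝ (F 0)))) w = (1 / 2) * (conj (F 0) * w).re := by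
      simp only [_root_.smul_apply, innerSL_apply_apply, Complex.inner, smul_eq_mul, nsmul_eq_mul]
      rw [mul_comm w]
      push_cast
      ring
    rw [_root_.add_apply, b5] at b4
    have b6 : ((deriv K 0 / deriv F 0 - (1 / 2) * conj (F 0)) * w).re =
        (deriv K 0 * (w / deriv F 0)).re - (1 / 2) * (conj (F 0) * w).re := by
      have : (deriv K 0 / deriv F 0 - (1 / 2) * conj (F 0)) * w =
          deriv K 0 * (w / deriv F 0) - ((1 / 2 : ℝ) : ℂ) * (conj (F 0) * w) := by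
        push_cast
        ring
      rw [this, sub_re, re_ofReal_mul]
    rw [b6]
    linarith
  rw [← hFf]
  refine (fderiv_norm_le hgrad2).trans ?_
  have hdec : deriv K 0 / deriv F 0 - (1 / 2) * conj (F 0) =
      (1 / 2) * (deriv Φ 0 / deriv F 0 - conj (F 0)) + deriv H 0 / deriv F 0 := by
    rw [hHder]
    have := hFne 0 h0R
    field_simp
    ring
  rw [hdec]
  refine (norm_add_le _ _).trans ?_
  have e1 : ‖(1 / 2 : ℂ) * (deriv Φ 0 / deriv F 0 - conj (F 0))‖ ≤ M / 2 := by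
    rw [norm_mul]
    have : ‖(1 / 2 : ℂ)‖ = 1 / 2 := by simp
    rw [this]
    linarith
  have e2 : ‖deriv H 0 / deriv F 0‖ ≤ ε * (Real.exp 1 * Real.exp 1) / (r * ‖deriv f 0‖) := by
    rw [norm_div, hFder, norm_mul, Complex.norm_real, Real.norm_eq_abs, abs_of_pos hr0, mul_comm r]
    gcongr
  linarith

lemma compact_bound {Ω : Set ℂ} {φ : ℂ → ℂ} (hφ : ContinuousOn φ Ω) (hφm : MapsTo φ Ω (ball 0 1))
    {C : Set ℂ} (hC : IsCompact C) (hCΩ : C ⊆ Ω) : ∃ r0 : ℝ, r0 < 1 ∧ ∀ w ∈ C, ‖φ w‖ ≤ r0 := by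
  rcases C.eq_empty_or_nonempty with h | h
  · exact ⟨0, one_pos, by rw [h]; simp⟩
  · obtain ⟨w0, hw0, hmax⟩ := hC.exists_isMaxOn h ((hφ.mono hCΩ).norm)
    refine ⟨‖φ w0‖, by simpa using hφm (hCΩ hw0), fun w hw => hmax hw⟩

/-- A boundary point of a smooth approximation where the gradient is larger than `M / 2`. -/
structure Conf (Ω K : Set ℂ) (M ρ : ℝ) (F Φ : ℂ → ℂ) (c0 : ℝ) (z0 : ℂ) : Prop where
  hρ : 1 < ρ
  hF : DifferentiableOn ℂ F (ball 0 ρ)
  inj : InjOn F (ball 0 ρ)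
  opn : IsOpen (F '' ball 0 1)
  conv : Convex ℝ (F '' ball 0 1)
  sub : F '' ball 0 1 ⊆ Ω
  sup : K ⊆ F '' ball 0 1
  hΦ : DifferentiableOn ℂ Φ (ball 0 ρ)
  circ : ∀ z : ℂ, ‖z‖ = 1 → 2 * (Φ z).re - c0 = ‖F z‖ ^ 2
  hz0 : ‖z0‖ = 1
  big : M < ‖deriv Φ z0 / deriv F z0 - conj (F z0)‖

theorem near_max {Ω : Set ℂ}
    (hopen : IsOpen Ω) (hconv : Convex ℝ Ω) (hbdd : Bornology.IsBounded Ω) {u : ℂ → ℝ}
    (hcont : ContinuousOn u (closure Ω))
    (hsm : ContDiffOn ℝ 2 u Ω) (hlap : ∀ x ∈ Ω, Laplacian.laplacian u x = -1)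
    (hbd : ∀ x ∈ frontier Ω, u x = 0) {x : ℂ} (hx : x ∈ Ω) {M : ℝ} (hM0 : 0 ≤ M)
    (hM : M < 2 * ‖fderiv ℝ u x‖) {K : Set ℂ} (hK : IsCompact K) (hKΩ : K ⊆ Ω) :
    ∃ (ρ : ℝ) (F Φ : ℂ → ℂ) (c0 : ℝ) (z0 : ℂ), Conf Ω K M ρ F Φ c0 z0 := by
  have hne : Ω ≠ univ := by
    intro h
    rw [h] at hbdd
    exact NormedSpace.unbounded_univ ℝ ℂ hbdd
  have hsc : IsSimplyConnected Ω := by
    have : ContractibleSpace Ω := hconv.contractibleSpace ⟨x, hx⟩
    exact (inferInstance : SimplyConnectedSpace Ω)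
  obtain ⟨f, φ, hf, hbij, hfne, hf0, hφ, hφm, hfφ, hφf⟩ :=
    Pool.Agent.Helper202.Riemann.riemann_inv hopen hsc hne hx
  have hd0 : 0 < ‖deriv f 0‖ := norm_pos_iff.2 (hfne 0 (mem_ball_self one_pos))
  have hcpt : IsCompact (closure Ω) := hbdd.isCompact_closure
  set B := 2 * (Real.exp 1 * Real.exp 1) / ‖deriv f 0‖ with hB
  have hB0 : 0 < B := by positivity
  obtain ⟨ε, hε, hεM⟩ : ∃ ε : ℝ, 0 < ε ∧ M / 2 + ε * B < ‖fderiv ℝ u x‖ := by
    refine ⟨(‖fderiv ℝ u x‖ - M / 2) / (2 * B), by apply div_pos <;> linarith, ?_⟩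
    have : (‖fderiv ℝ u x‖ - M / 2) / (2 * B) * B = (‖fderiv ℝ u x‖ - M / 2) / 2 := by
      field_simp
    rw [this]
    linarith
  set C : Set ℂ := closure Ω ∩ {w | ε ≤ |u w|} with hC
  have hCc : IsCompact C := by
    have h1 : ContinuousOn (fun w => |u w|) (closure Ω) := hcont.abs
    have h2 : IsClosed (closure Ω ∩ (fun w => |u w|) ⁻¹' Ici ε) :=
      h1.preimage_isClosed_of_isClosed isClosed_closure isClosed_Ici
    exact hcpt.of_isClosed_subset h2 inter_subset_left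
  have hCΩ : C ⊆ Ω := by
    rintro w ⟨h1, h2⟩
    by_contra h3
    have h4 : w ∈ frontier Ω := by rw [frontier, hopen.interior_eq]; exact ⟨h1, h3⟩
    have h5 : ε ≤ |u w| := h2
    rw [hbd w h4, abs_zero] at h5
    linarith
  obtain ⟨r0, hr0, hr1⟩ := compact_bound hφ.continuousOn hφm hCc hCΩ
  obtain ⟨r2, hr2, hr3⟩ := compact_bound hφ.continuousOn hφm hK hKΩ
  set r : ℝ := max (max ((1 + r0) / 2) (1 / 2)) ((1 + r2) / 2) with hr
  have hrhalf : 1 / 2 ≤ r := (le_max_right _ _).trans (le_max_left _ _)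
  have hr01 : 0 < r := by linarith
  have hrlt : r < 1 := max_lt (max_lt (by linarith) (by norm_num)) (by linarith)
  have hrr0 : r0 < r := lt_of_lt_of_le (by linarith : r0 < (1 + r0) / 2)
    ((le_max_left _ _).trans (le_max_left _ _))
  have hrr2 : r2 < r := lt_of_lt_of_le (by linarith : r2 < (1 + r2) / 2) (le_max_right _ _)
  have hu : ∀ z : ℂ, ‖z‖ = r → |u (f z)| ≤ ε := by
    intro z hz
    by_contra hcon
    push Not at hcon
    have hz1 : z ∈ ball (0 : ℂ) 1 := by rw [mem_ball_zero_iff, hz]; exact hrlt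
    have h6 := hr1 (f z) ⟨subset_closure (hbij.mapsTo hz1), hcon.le⟩
    rw [hφf z hz1, hz] at h6
    linarith
  have h8 : ε * (Real.exp 1 * Real.exp 1) / (r * ‖deriv f 0‖) ≤ ε * B := by
    rw [div_le_iff₀ (by positivity), hB]
    have : ε * (2 * (Real.exp 1 * Real.exp 1) / ‖deriv f 0‖) * (r * ‖deriv f 0‖) =
        ε * (Real.exp 1 * Real.exp 1) * (2 * r) := by
      field_simp
    rw [this]
    have h9 : 0 < ε * (Real.exp 1 * Real.exp 1) := by positivity
    nlinarith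
  obtain ⟨ρ, F, Φ, c0, z0, h1, h2, h3, h4, h5, h6, h7, h9, h10, h11⟩ :=
    step_gen hopen hconv hsm hlap hf hbij.mapsTo hφ hφm hfφ hφf hr01 hrlt hε hu hM0
      (by rw [hf0]; linarith)
  refine ⟨ρ, F, Φ, c0, z0, h1, h2, h3, h4, h5, ?_, ?_, h7, h9, h10, h11⟩
  · rw [h6]
    rintro w ⟨z, hz, rfl⟩
    exact hbij.mapsTo (ball_subset_ball hrlt.le hz)
  · rw [h6]
    intro w hw
    refine ⟨φ w, ?_, hfφ w (hKΩ hw)⟩
    rw [mem_ball_zero_iff]
    exact (hr3 w hw).trans_lt hrr2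

end Pool.Agent.W39.TG
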