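import Mathlib
import Pool.Agent.H781R2.Lay3

/-!
# Truncation of a nearly extremal profile

If the profile `Y` nearly realises the sharp inequality `(∫ Y²)² ≤ 4 S² A (∫ Y)²` then its
superlevel sets are bounded, uniformly in the level: the truncated profile `(Y - τ)⁺` has
smaller energy and has to satisfy the same inequality.
-/

set_option autoImplicit false

open MeasureTheory Set Topology Filter
open scoped ENNReal Real

namespace Pool.Agent.W39.TG

open H781

lemma prof_trunc {Y : ℝ → ℝ} (h : Prof Y) {τ : ℝ} (hτ : 0 ≤ τ) : Prof (fun x => max (Y x - τ) 0) where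
  cont := (h.cont.sub continuous_const).max continuous_const
  nonneg := fun x => le_max_right _ _
  bot := by
    have h1 : Tendsto (fun x => max (Y x - τ) 0) atBot (𝓝 (max (0 - τ) 0)) :=
      (h.bot.sub_const τ).max tendsto_const_nhds
    rwa [max_eq_right (by linarith)] at h1
  top := by
    have h1 : Tendsto (fun x => max (Y x - τ) 0) atTop (𝓝 (max (0 - τ) 0)) :=
      (h.top.sub_const τ).max tendsto_const_nhds
    rwa [max_eq_right (by linarith)] at h1
  conn := by
    intro t ht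
    have h1 : {x | t < max (Y x - τ) 0} = {x | t + τ < Y x} := by
      ext x
      simp only [mem_setOf_eq, lt_max_iff]
      constructor
      · rintro (h2 | h2) <;> linarith
      · intro h2
        left
        linarith
    rw [h1]
    exact h.conn _ (by linarith)

lemma trunc_le {y τ : ℝ} (hy : 0 ≤ y) (hτ : 0 ≤ τ) : max (y - τ) 0 ≤ y :=
  max_le (by linarith) hy

lemma trunc_sq {y τ : ℝ} (hy : 0 ≤ y) (hτ : 0 ≤ τ) : y ^ 2 - 2 * τ * y ≤ max (y - τ) 0 ^ 2 := by
  rcases le_total (y - τ) 0 with h | h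
  · rw [max_eq_right h]
    nlinarith
  · rw [max_eq_left h]
    nlinarith [sq_nonneg τ]

lemma trunc_dist (a b τ : ℝ) : (max (a - τ) 0 - max (b - τ) 0) ^ 2 ≤ (a - b) ^ 2 := by
  rw [← sq_abs (max (a - τ) 0 - max (b - τ) 0), ← sq_abs (a - b)]
  have h1 := abs_max_sub_max_le_abs (a - τ) (b - τ) 0
  have h2 : a - τ - (b - τ) = a - b := by ring
  rw [h2] at h1
  gcongr

theorem trunc_main {lam κ : ℝ} (hlam : 0 < lam) (hκ : 0 < κ) (hK : KerOK lam κ) {Y : ℝ → ℝ}
    (h : Prof Y) (hi : Integrable Y) (hi2 : Integrable (fun x => Y x ^ 2)) {A : ℝ} (hA : 0 ≤ A)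
    (hA1 : A ≤ 1)
    (hE : ∫⁻ x : ℝ, ∫⁻ y : ℝ, ENNReal.ofReal ((Y x - Y y) ^ 2 / (x - y) ^ 2) ≤
      ENNReal.ofReal (2 * π * A)) {S δ τ : ℝ} (hS : S = √(κ / lam)) (hτ : 0 < τ)
    (hnear : 2 * (S - δ) * (∫ x, Y x) ≤ ∫ x, Y x ^ 2) :
    (∫ x, Y x ^ 2) - 2 * τ * (∫ x, Y x) ≤ 2 * S * ∫ x, max (Y x - τ) 0 ∧
      S * τ * (volume {x | τ < Y x}).toReal ≤ (δ + τ) * ∫ x, Y x := by
  have hS0 : 0 ≤ S := by rw [hS]; positivity
  have hm : Continuous (fun x => max (Y x - τ) 0) := (prof_trunc h hτ.le).cont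
  have ii : Integrable (fun x => max (Y x - τ) 0) := by
    refine hi.mono' hm.aestronglyMeasurable (Eventually.of_forall fun x => ?_)
    rw [Real.norm_eq_abs, abs_of_nonneg (le_max_right _ _)]
    exact trunc_le (h.nonneg x) hτ.le
  have ii2 : Integrable (fun x => max (Y x - τ) 0 ^ 2) := by
    refine hi2.mono' (hm.pow 2).aestronglyMeasurable (Eventually.of_forall fun x => ?_)
    rw [Real.norm_eq_abs, abs_of_nonneg (by positivity)]
    have := trunc_le (h.nonneg x) hτ.le
    have h0 : (0:ℝ) ≤ max (Y x - τ) 0 := le_max_right _ _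
    gcongr
  have hEn : ∫⁻ x : ℝ, ∫⁻ y : ℝ, ENNReal.ofReal ((max (Y x - τ) 0 - max (Y y - τ) 0) ^ 2 / (x - y) ^ 2) ≤
      ENNReal.ofReal (2 * π * A) := by
    refine le_trans ?_ hE
    refine lintegral_mono fun x => lintegral_mono fun y => ENNReal.ofReal_le_ofReal ?_
    exact div_le_div_of_nonneg_right (trunc_dist _ _ _) (sq_nonneg _)
  have hfn := fracNash hlam hκ hK (prof_trunc h hτ.le) ii ii2 hA hEn
  have hp0 : 0 ≤ ∫ x, max (Y x - τ) 0 := integral_nonneg fun x => le_max_right _ _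
  have hq0 : 0 ≤ ∫ x, max (Y x - τ) 0 ^ 2 := integral_nonneg fun x => by positivity
  have hkl : κ / lam = S ^ 2 := by rw [hS, Real.sq_sqrt (by positivity)]
  have h1 : (∫ x, max (Y x - τ) 0 ^ 2) ≤ 2 * S * ∫ x, max (Y x - τ) 0 := by
    rw [hkl] at hfn
    refine le_of_sq_le_sq ?_ (by positivity)
    refine hfn.trans ?_
    have : (2 * S * ∫ x, max (Y x - τ) 0) ^ 2 = 4 * S ^ 2 * 1 * (∫ x, max (Y x - τ) 0) ^ 2 := by ring
    rw [this]
    gcongr
  have h2 : (∫ x, Y x ^ 2) - 2 * τ * (∫ x, Y x) ≤ ∫ x, max (Y x - τ) 0 ^ 2 := by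
    rw [← integral_const_mul, ← integral_sub hi2 (hi.const_mul _)]
    exact integral_mono (hi2.sub (hi.const_mul _)) ii2 fun x => trunc_sq (h.nonneg x) hτ.le
  have h3 := h2.trans h1
  refine ⟨h3, ?_⟩
  have hms : MeasurableSet {x | τ < Y x} := (isOpen_lt continuous_const h.cont).measurableSet
  have hfin : volume {x | τ < Y x} < ⊤ := hi.measure_gt_lt_top hτ
  have h4 : (∫ x, max (Y x - τ) 0) + τ * (volume {x | τ < Y x}).toReal ≤ ∫ x, Y x := by
    have e1 : τ * (volume {x | τ < Y x}).toReal = ∫ x, ({x | τ < Y x}.indicator (fun _ => τ)) x := by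
      rw [integral_indicator hms, setIntegral_const, smul_eq_mul, mul_comm]
      rfl
    have i3 : Integrable ({x | τ < Y x}.indicator (fun _ => τ)) := by
      rw [integrable_indicator_iff hms]
      exact integrableOn_const hfin.ne
    rw [e1, ← integral_add ii i3]
    refine integral_mono (ii.add i3) hi fun x => ?_
    simp only [indicator, mem_setOf_eq]
    split_ifs with hx
    · rw [max_eq_left (by linarith)]
      linarith
    · rw [add_zero]
      exact trunc_le (h.nonneg x) hτ.le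
  have h5 : 2 * S * (∫ x, max (Y x - τ) 0) ≤
      2 * S * ((∫ x, Y x) - τ * (volume {x | τ < Y x}).toReal) := by
    gcongr
    linarith
  nlinarith

end Pool.Agent.W39.TG
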