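import Mathlib
import Pool.Agent.H781R2.En

/-!
# The mean value property on the real line

The Cayley map `cay` takes the line to the unit circle. The mean value property of functions
which are holomorphic in the disc, at the point of the disc which corresponds to `p + i L`.
-/

set_option autoImplicit false

open Complex MeasureTheory Set Filter Topology Metric
open scoped ENNReal Real

namespace Pool.Agent.W39.TG

open H781

lemma int_cay (h : ℂ → ℂ) :
    ∫ x : ℝ, (2 / (1 + x ^ 2) : ℝ) • h (cay x) = ∫ θ in (0 : ℝ)..2 * π, h (circleMap 0 1 θ) := by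
  have himg : (fun x : ℝ => 2 * Real.arctan x) '' univ = Ioo (-π) π := by
    ext y
    simp only [image_univ, mem_range, mem_Ioo]
    constructor
    · rintro ⟨x, rfl⟩
      have h1 := Real.arctan_lt_pi_div_two x
      have h2 := Real.neg_pi_div_two_lt_arctan x
      constructor <;> linarith
    · rintro ⟨h1, h2⟩
      refine ⟨Real.tan (y / 2), ?_⟩
      rw [Real.arctan_tan (by linarith) (by linarith)]
      ring
  have hder : ∀ x ∈ (univ : Set ℝ), HasDerivWithinAt (fun x : ℝ => 2 * Real.arctan x)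
      (2 / (1 + x ^ 2)) univ x := by
    intro x _
    have := ((Real.hasDerivAt_arctan x).const_mul 2).hasDerivWithinAt (s := univ)
    rw [show (2 : ℝ) / (1 + x ^ 2) = 2 * (1 / (1 + x ^ 2)) by ring]
    exact this
  have hinj : InjOn (fun x : ℝ => 2 * Real.arctan x) univ := by
    intro a _ b _ hab
    have : Real.arctan a = Real.arctan b := by
      have h : 2 * Real.arctan a = 2 * Real.arctan b := hab
      linarith
    exact Real.arctan_injective this
  have key := integral_image_eq_integral_abs_deriv_smul MeasurableSet.univ hder hinj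
    (fun φ => h (ci π * ci φ))
  rw [himg] at key
  have e1 : ∫ φ in Ioo (-π) π, h (ci π * ci φ) = ∫ θ in (0 : ℝ)..2 * π, h (circleMap 0 1 θ) := by
    rw [← integral_Ioc_eq_integral_Ioo, ← intervalIntegral.integral_of_le (by linarith [Real.pi_pos])]
    have h1 := intervalIntegral.integral_comp_add_right (a := -π) (b := π)
      (fun θ => h (circleMap 0 1 θ)) π
    rw [show -π + π = 0 by ring, show π + π = 2 * π by ring] at h1
    rw [← h1]
    refine intervalIntegral.integral_congr fun x _ => ?_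
    rw [← ci_add]
    congr 1
    unfold ci circleMap
    rw [add_comm x π]
    simp
  rw [← e1, key, setIntegral_univ]
  refine integral_congr_ae (Eventually.of_forall fun x => ?_)
  simp only []
  rw [cay_eq_ci, abs_of_pos (by positivity)]

lemma cont_cay {h : ℂ → ℂ} (hh : DiffContOnCl ℂ h (ball 0 1)) : Continuous (fun x : ℝ => h (cay x)) := by
  have h1 : ContinuousOn h (closedBall 0 1) := by
    have := hh.continuousOn
    rwa [closure_ball _ one_ne_zero] at this
  exact h1.comp_continuous cay_cont fun x => by simp [cay_norm]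

lemma bdd_cay {h : ℂ → ℂ} (hh : DiffContOnCl ℂ h (ball 0 1)) : ∃ C, ∀ x : ℝ, ‖h (cay x)‖ ≤ C := by
  have h1 : ContinuousOn h (closedBall 0 1) := by
    have := hh.continuousOn
    rwa [closure_ball _ one_ne_zero] at this
  obtain ⟨C, hC⟩ := (isCompact_closedBall (0 : ℂ) 1).exists_bound_of_continuousOn h1
  exact ⟨C, fun x => hC _ (by simp [cay_norm])⟩

theorem mean_line {h : ℂ → ℂ} (hh : DiffContOnCl ℂ h (ball 0 1)) :
    Integrable (fun x : ℝ => (h (cay x)).re / (1 + x ^ 2)) ∧
      ∫ x : ℝ, (h (cay x)).re / (1 + x ^ 2) = π * (h 0).re := by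
  obtain ⟨C, hC⟩ := bdd_cay hh
  have hc := cont_cay hh
  have hpi := Real.pi_pos
  have hcq : Continuous (fun x : ℝ => (2 / (1 + x ^ 2) : ℝ)) :=
    Continuous.div continuous_const (by fun_prop) fun x => by positivity
  have hcr : Continuous (fun x : ℝ => (2 / (1 + x ^ 2) : ℝ) • h (cay x)) := hcq.smul hc
  have hint : Integrable (fun x : ℝ => (2 / (1 + x ^ 2) : ℝ) • h (cay x)) := by
    refine (integrable_inv_one_add_sq.const_mul (2 * C)).mono' hcr.aestronglyMeasurable
      (Eventually.of_forall fun x => ?_)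
    rw [norm_smul, Real.norm_eq_abs, abs_of_pos (by positivity)]
    have h1 := hC x
    have h2 : (0 : ℝ) < (1 + x ^ 2)⁻¹ := by positivity
    rw [div_eq_mul_inv]
    nlinarith [mul_le_mul_of_nonneg_left h1 h2.le]
  have h1 := hh
  rw [← abs_one (α := ℝ)] at h1
  have h2 := h1.circleAverage
  rw [Real.circleAverage_def, ← int_cay] at h2
  have h3 : ∀ x : ℝ, ((2 / (1 + x ^ 2) : ℝ) • h (cay x)).re = 2 * ((h (cay x)).re / (1 + x ^ 2)) := by
    intro x
    rw [Complex.real_smul, re_ofReal_mul]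
    ring
  have h4 := integral_re hint
  simp only [RCLike.re_to_complex, h3] at h4
  have hint2 : Integrable (fun x : ℝ => 2 * ((h (cay x)).re / (1 + x ^ 2))) := by
    have := hint.re
    simp only [RCLike.re_to_complex, h3] at this
    exact this
  have h5 : Integrable (fun x : ℝ => (h (cay x)).re / (1 + x ^ 2)) := by
    have := hint2.const_mul (1 / 2)
    refine this.congr (Eventually.of_forall fun x => ?_)
    simp only []
    ring
  refine ⟨h5, ?_⟩
  rw [integral_const_mul] at h4
  have h6 : ∫ x : ℝ, (2 / (1 + x ^ 2) : ℝ) • h (cay x) = (2 * π : ℝ) • h 0 := by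
    rw [← h2, smul_smul, mul_inv_cancel₀ (by positivity), one_smul]
  rw [h6, Complex.real_smul, re_ofReal_mul] at h4
  linarith

/-- The automorphism of the disc which corresponds to the affine map `x ↦ p + L x` of the line. -/
noncomputable def Tm (p L : ℝ) (z : ℂ) : ℂ :=
  (((p : ℂ) + (L - 1) * I) + z * (-p + (L + 1) * I)) / (((p : ℂ) + (L + 1) * I) + z * (-p + (L - 1) * I))

lemma Tm_id (p L : ℝ) (z : ℂ) :
    ‖((p : ℂ) + (L + 1) * I) + z * (-p + (L - 1) * I)‖ ^ 2 =
      ‖((p : ℂ) + (L - 1) * I) + z * (-p + (L + 1) * I)‖ ^ 2 + 4 * L * (1 - ‖z‖ ^ 2) := by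
  obtain ⟨a, b⟩ := z
  simp only [Complex.sq_norm, Complex.normSq_apply, add_re, add_im, mul_re, mul_im, neg_re, neg_im,
    ofReal_re, ofReal_im, I_re, I_im, sub_re, sub_im, one_re, one_im]
  ring

lemma Tm_den {p L : ℝ} (hL : 0 < L) {z : ℂ} (hz : ‖z‖ ≤ 1) :
    ((p : ℂ) + (L + 1) * I) + z * (-p + (L - 1) * I) ≠ 0 := by
  intro h
  have h1 : ‖(p : ℂ) + (L + 1) * I‖ = ‖z‖ * ‖(-p + (L - 1) * I : ℂ)‖ := by
    rw [← norm_mul, ← norm_neg (z * _)]
    congr 1
    linear_combination h
  have h2 : ‖(p : ℂ) + (L + 1) * I‖ ^ 2 = p ^ 2 + (L + 1) ^ 2 := by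
    simp only [Complex.sq_norm, Complex.normSq_apply, add_re, add_im, mul_re, mul_im,
      ofReal_re, ofReal_im, I_re, I_im, one_re, one_im]
    ring
  have h3 : ‖(-p + (L - 1) * I : ℂ)‖ ^ 2 = p ^ 2 + (L - 1) ^ 2 := by
    simp only [Complex.sq_norm, Complex.normSq_apply, add_re, add_im, mul_re, mul_im, neg_re, neg_im,
      ofReal_re, ofReal_im, I_re, I_im, sub_re, sub_im, one_re, one_im]
    ring
  have h4 : ‖(p : ℂ) + (L + 1) * I‖ ^ 2 ≤ ‖(-p + (L - 1) * I : ℂ)‖ ^ 2 := by
    rw [h1, mul_pow]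
    have : ‖z‖ ^ 2 ≤ 1 := by
      have := norm_nonneg z
      nlinarith
    nlinarith [sq_nonneg ‖(-p + (L - 1) * I : ℂ)‖]
  rw [h2, h3] at h4
  nlinarith

lemma Tm_lt {p L : ℝ} (hL : 0 < L) {z : ℂ} (hz : ‖z‖ < 1) : ‖Tm p L z‖ < 1 := by
  unfold Tm
  have hd := norm_pos_iff.2 (Tm_den (p := p) hL hz.le)
  rw [norm_div, div_lt_one hd]
  have h1 := Tm_id p L z
  have h2 : 0 < 4 * L * (1 - ‖z‖ ^ 2) := by
    have := norm_nonneg z
    have : ‖z‖ ^ 2 < 1 := by nlinarith
    have : 0 < 1 - ‖z‖ ^ 2 := by linarith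
    positivity
  exact lt_of_pow_lt_pow_left₀ 2 hd.le (by linarith)

lemma Tm_le {p L : ℝ} (hL : 0 < L) {z : ℂ} (hz : ‖z‖ ≤ 1) : ‖Tm p L z‖ ≤ 1 := by
  unfold Tm
  have hd := norm_pos_iff.2 (Tm_den (p := p) hL hz)
  rw [norm_div, div_le_one hd]
  have h1 := Tm_id p L z
  have h2 : 0 ≤ 4 * L * (1 - ‖z‖ ^ 2) := by
    have := norm_nonneg z
    have : ‖z‖ ^ 2 ≤ 1 := by nlinarith
    have : 0 ≤ 1 - ‖z‖ ^ 2 := by linarith
    positivity
  exact le_of_sq_le_sq (by linarith) hd.le

lemma Tm_cay {p L : ℝ} (x : ℝ) : Tm p L (cay x) = cay (p + L * x) := by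
  unfold Tm cay
  have h1 := xi_ne x
  have h2 := xi_ne (p + L * x)
  have e1 : ((p : ℂ) + (L - 1) * I) + ((x - I) / (x + I)) * (-p + (L + 1) * I) =
      (2 * I / (x + I)) * (((p + L * x : ℝ) : ℂ) - I) := by
    field_simp
    push_cast
    linear_combination (0 : ℂ) * I_sq
  have e2 : ((p : ℂ) + (L + 1) * I) + ((x - I) / (x + I)) * (-p + (L - 1) * I) =
      (2 * I / (x + I)) * (((p + L * x : ℝ) : ℂ) + I) := by
    field_simp
    push_cast
    linear_combination (0 : ℂ) * I_sq
  rw [e1, e2, mul_div_mul_left]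
  exact div_ne_zero (mul_ne_zero two_ne_zero I_ne_zero) h1

lemma Tm_dc {p L : ℝ} (hL : 0 < L) : DiffContOnCl ℂ (Tm p L) (ball 0 1) := by
  refine DifferentiableOn.diffContOnCl ?_
  rw [closure_ball _ one_ne_zero]
  have h1 : Differentiable ℂ (fun z : ℂ => ((p : ℂ) + (L - 1) * I) + z * (-p + (L + 1) * I)) :=
    (differentiable_id.mul_const _).const_add _
  have h2 : Differentiable ℂ (fun z : ℂ => ((p : ℂ) + (L + 1) * I) + z * (-p + (L - 1) * I)) :=
    (differentiable_id.mul_const _).const_add _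
  exact h1.differentiableOn.div h2.differentiableOn fun z hz => Tm_den hL (by simpa using hz)

theorem mean_line' {h : ℂ → ℂ} (hh : DiffContOnCl ℂ h (ball 0 1)) {p L : ℝ} (hL : 0 < L) :
    Integrable (fun x : ℝ => (h (cay (p + L * x))).re / (1 + x ^ 2)) ∧
      ∫ x : ℝ, (h (cay (p + L * x))).re / (1 + x ^ 2) = π * (h (Tm p L 0)).re := by
  have h1 : DiffContOnCl ℂ (h ∘ Tm p L) (ball 0 1) :=
    hh.comp (Tm_dc hL) fun z hz => by
      rw [mem_ball_zero_iff] at *
      exact Tm_lt hL hz
  have h2 := mean_line h1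
  simp only [Function.comp_apply, Tm_cay] at h2
  exact h2

/-- The two consequences of the mean value property: if `Y = Re G ≥ 0` is larger than `τ` only on an
interval of length at most `L` and all boundary points of height at most `τ` have a modulus of at
most `ω`, then the value of `G` at some point is both large and small. -/
theorem harm {G : ℂ → ℂ} (hG : DiffContOnCl ℂ G (ball 0 1)) (hnn : ∀ z : ℂ, ‖z‖ ≤ 1 → 0 ≤ (G z).re)
    {p L τ ω : ℝ} (hL : 0 < L) (hτ : 0 ≤ τ) (hω : 0 < ω)
    (hset : ∀ x : ℝ, τ < (G (cay x)).re → |x - p| ≤ L / 2)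
    (hsmall : ∀ x : ℝ, (G (cay x)).re ≤ τ → ‖G (cay x)‖ ≤ ω) :
    4 / 5 * (L⁻¹ * ∫ x : ℝ, max ((G (cay x)).re - τ) 0) ≤ π * (G (Tm p L 0)).re ∧
      π - 1 ≤ π * (2 * ω / ((G (Tm p L 0)).re + ω)) := by
  have hpi := Real.pi_pos
  have hT0 : ‖Tm p L 0‖ ≤ 1 := Tm_le hL (by simp)
  constructor
  · obtain ⟨i1, e1⟩ := mean_line' (p := p) hG hL
    rw [← e1]
    have e2 : L⁻¹ * ∫ x : ℝ, max ((G (cay x)).re - τ) 0 =
        ∫ x : ℝ, max ((G (cay (p + L * x))).re - τ) 0 := by
      have h1 := Measure.integral_comp_mul_left (fun y : ℝ => max ((G (cay (p + y))).re - τ) 0) L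
      rw [h1, integral_add_left_eq_self (fun y : ℝ => max ((G (cay y)).re - τ) 0) p,
        abs_of_pos (inv_pos.2 hL), smul_eq_mul]
    rw [e2, ← integral_const_mul]
    refine integral_mono_of_nonneg (Eventually.of_forall fun x => ?_) i1
      (Eventually.of_forall fun x => ?_)
    · have : (0 : ℝ) ≤ max ((G (cay (p + L * x))).re - τ) 0 := le_max_right _ _
      simp only [Pi.zero_apply]
      positivity
    · simp only []
      have hY := hnn (cay (p + L * x)) (cay_norm _).le
      rcases le_or_gt (G (cay (p + L * x))).re τ with h | h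
      · rw [max_eq_right (by linarith), mul_zero]
        positivity
      · rw [max_eq_left (by linarith)]
        have h2 := hset _ h
        rw [add_sub_cancel_left, abs_mul, abs_of_pos hL] at h2
        have h3 : |x| ≤ 1 / 2 := by
          by_contra hcon
          push Not at hcon
          nlinarith
        have h4 : x ^ 2 ≤ 1 / 4 := by
          rw [← sq_abs]
          nlinarith [abs_nonneg x]
        rw [le_div_iff₀ (by positivity)]
        nlinarith [sq_nonneg x]
  · have hne : ∀ z : ℂ, ‖z‖ ≤ 1 → G z + ω ≠ 0 := by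
      intro z hz h0
      have h1 := congrArg Complex.re h0
      have h2 := hnn z hz
      simp only [add_re, ofReal_re, zero_re] at h1
      linarith
    have hV : DiffContOnCl ℂ (fun z => (2 * ω : ℂ) / (G z + ω)) (ball 0 1) := by
      have h1 : DiffContOnCl ℂ (fun z => G z + (ω : ℂ)) (ball 0 1) := hG.add_const _
      have h2 : DiffContOnCl ℂ (fun z => G z + (ω : ℂ))⁻¹ (ball 0 1) := by
        refine h1.inv fun z hz => hne z ?_
        rw [closure_ball _ one_ne_zero] at hz
        simpa using hz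
      have h3 := h2.const_smul (2 * ω : ℂ)
      have h4 : (fun z => (2 * ω : ℂ) / (G z + ω)) = (2 * ω : ℂ) • (fun z => G z + (ω : ℂ))⁻¹ := by
        funext z
        rw [Pi.smul_apply, Pi.inv_apply, smul_eq_mul, div_eq_mul_inv]
      rw [h4]
      exact h3
    obtain ⟨i1, e1⟩ := mean_line' (p := p) hV hL
    have hVre : ∀ z : ℂ, ‖z‖ ≤ 1 → ((2 * ω : ℂ) / (G z + ω)).re =
        2 * ω * ((G z).re + ω) / ‖G z + ω‖ ^ 2 := by
      intro z hz
      have : (2 * ω : ℂ) = ((2 * ω : ℝ) : ℂ) := by push_cast; ring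
      rw [this, div_eq_mul_inv, re_ofReal_mul, inv_re, ← Complex.sq_norm]
      simp only [add_re, ofReal_re]
      ring
    have hVnn : ∀ z : ℂ, ‖z‖ ≤ 1 → 0 ≤ ((2 * ω : ℂ) / (G z + ω)).re := by
      intro z hz
      rw [hVre z hz]
      have := hnn z hz
      positivity
    have hV1 : ∀ z : ℂ, ‖z‖ ≤ 1 → ‖G z‖ ≤ ω → 1 ≤ ((2 * ω : ℂ) / (G z + ω)).re := by
      intro z hz hw
      rw [hVre z hz, le_div_iff₀ (by have := norm_pos_iff.2 (hne z hz); positivity), one_mul]
      have h1 : ‖G z + ω‖ ^ 2 = ‖G z‖ ^ 2 + 2 * ω * (G z).re + ω ^ 2 := by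
        simp only [Complex.sq_norm, Complex.normSq_apply, add_re, add_im, ofReal_re, ofReal_im]
        ring
      rw [h1]
      have h2 : ‖G z‖ ^ 2 ≤ ω ^ 2 := by
        have := norm_nonneg (G z)
        gcongr
      nlinarith
    have hI : Integrable ((Icc (-(1 / 2) : ℝ) (1 / 2)).indicator (fun _ => (1 : ℝ))) := by
      rw [integrable_indicator_iff measurableSet_Icc]
      exact integrableOn_const (by simp)
    have hk : ∫ x : ℝ, ((1 + x ^ 2)⁻¹ - (Icc (-(1 / 2) : ℝ) (1 / 2)).indicator (fun _ => (1 : ℝ)) x) = π - 1 := by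
      rw [integral_sub integrable_inv_one_add_sq hI, integral_univ_inv_one_add_sq,
        integral_indicator measurableSet_Icc, setIntegral_const]
      simp only [Measure.real, Real.volume_Icc, smul_eq_mul, mul_one]
      norm_num
    have h5 : π - 1 ≤ π * ((2 * ω : ℂ) / (G (Tm p L 0) + ω)).re := by
      rw [← e1, ← hk]
      refine integral_mono (integrable_inv_one_add_sq.sub hI) i1 fun x => ?_
      simp only [indicator, mem_Icc]
      have hn := (cay_norm (p + L * x)).le
      split_ifs with hx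
      · have h6 := hVnn _ hn
        have h7 : (1 + x ^ 2)⁻¹ ≤ 1 := inv_le_one_of_one_le₀ (by nlinarith)
        have h8 : 0 ≤ ((2 * ω : ℂ) / (G (cay (p + L * x)) + ω)).re / (1 + x ^ 2) := by positivity
        linarith
      · have h6 : ‖G (cay (p + L * x))‖ ≤ ω := by
          apply hsmall
          by_contra hcon
          push Not at hcon
          have h2 := hset _ hcon
          rw [add_sub_cancel_left, abs_mul, abs_of_pos hL] at h2
          apply hx
          have h3 : |x| ≤ 1 / 2 := by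
            by_contra hcon
            push Not at hcon
            nlinarith
          exact abs_le.1 h3
        have h7 := hV1 _ hn h6
        rw [sub_zero, inv_eq_one_div]
        gcongr
    refine h5.trans (mul_le_mul_of_nonneg_left ?_ hpi.le)
    have h9 : 0 < (G (Tm p L 0)).re + ω := by linarith [hnn _ hT0]
    refine (Complex.re_le_norm _).trans ?_
    have h10 : ‖(2 * ω : ℂ)‖ = 2 * ω := by
      have : (2 * ω : ℂ) = ((2 * ω : ℝ) : ℂ) := by push_cast; ring
      rw [this, Complex.norm_real, Real.norm_eq_abs, abs_of_pos (by positivity)]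
    rw [norm_div, h10]
    have h11 : (G (Tm p L 0)).re + ω ≤ ‖G (Tm p L 0) + ω‖ := by
      have := Complex.re_le_norm (G (Tm p L 0) + ω)
      simpa using this
    gcongr

end Pool.Agent.W39.TG
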