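import Mathlib
import Pool.Agent.W39.TG.B
import Pool.Agent.W39.TG.C
import Pool.Agent.W39.TG.D1
import Pool.Agent.H781R2.Disc

/-!
# Nearly extremal configurations have a nearly flat side

If the boundary gradient of a smooth approximation of a convex domain of area at most one is nearly
as large as possible, then there is a point of the closure whose distance from the boundary point is
at least `1 / 25`, but whose distance from the supporting line at the boundary point is small.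

The first half of the proof (the normalisation) is copied from `H781.disc_bound` (starting files).
-/

set_option autoImplicit false

open Complex MeasureTheory Set Filter Topology Metric
open scoped ENNReal Real ComplexConjugate

namespace Pool.Agent.W39.TG

open H781

/-- the one dimensional part -/
lemma far_point {G : ℂ → ℂ} (hG : DiffContOnCl ℂ G (ball 0 1))
    (hnn : ∀ z : ℂ, ‖z‖ ≤ 1 → 0 ≤ (G z).re) (hprof : Prof (fun x : ℝ => (G (cay x)).re))
    (i1 : Integrable (fun x : ℝ => (G (cay x)).re))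
    (i2 : Integrable (fun x : ℝ => (G (cay x)).re ^ 2))
    {lam κ : ℝ} (hlam : 0 < lam) (hκ : 0 < κ) (hK : KerOK lam κ) {S τ A : ℝ} (hS : S = √(κ / lam))
    (hS0 : 0.358 < S) (hτ : 0 < τ) (hτ1 : τ ≤ 1 / 100) (hA : 0 ≤ A) (hA1 : A ≤ 1)
    (hE : ∫⁻ x : ℝ, ∫⁻ y : ℝ, ENNReal.ofReal (((G (cay x)).re - (G (cay y)).re) ^ 2 / (x - y) ^ 2) ≤
      ENNReal.ofReal (2 * π * A))
    (hpos : 0 < ∫ x : ℝ, (G (cay x)).re)
    (hnear : 2 * (S - τ ^ 2) * (∫ x : ℝ, (G (cay x)).re) ≤ ∫ x : ℝ, (G (cay x)).re ^ 2) :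
    ∃ x : ℝ, (G (cay x)).re ≤ τ ∧ 1 / 25 ≤ ‖G (cay x)‖ := by
  have hpi := Real.pi_pos
  obtain ⟨h1, h2⟩ := trunc_main hlam hκ hK hprof i1 i2 hA hA1 hE hS hτ hnear
  set N := ∫ x : ℝ, (G (cay x)).re with hN
  set J := ∫ x : ℝ, max ((G (cay x)).re - τ) 0 with hJ
  have hS1 : 0 < S := by linarith
  have hJ1 : (S - τ ^ 2 - τ) * N ≤ S * J := by nlinarith
  have hτ2 : τ ^ 2 ≤ 1 / 10000 := by nlinarith
  have hJ0 : 0 < J := by
    have h3 : 0 < (S - τ ^ 2 - τ) * N := mul_pos (by linarith) hpos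
    by_contra hcon
    push Not at hcon
    nlinarith
  have hne : ∃ x : ℝ, τ < (G (cay x)).re := by
    by_contra hcon
    push Not at hcon
    have h3 : J = 0 := by
      rw [hJ]
      have : (fun x : ℝ => max ((G (cay x)).re - τ) 0) = fun _ => (0 : ℝ) := by
        funext x
        exact max_eq_right (by linarith [hcon x])
      rw [this, integral_zero]
    linarith
  obtain ⟨a, b, hab, hset, -, -⟩ := hprof.interval hτ hne
  rw [hset, Real.volume_Ioo, ENNReal.toReal_ofReal (by linarith)] at h2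
  by_contra hcon
  push Not at hcon
  set L := (1 + τ) * N / S with hL
  have hL0 : 0 < L := by positivity
  have hbL : b - a ≤ L := by
    rw [hL, le_div_iff₀ hS1]
    have h3 : τ * ((b - a) * S) ≤ τ * ((1 + τ) * N) := by nlinarith
    exact le_of_mul_le_mul_left h3 hτ
  obtain ⟨k1, k2⟩ := harm (p := (a + b) / 2) (L := L) (τ := τ) (ω := 1 / 25) hG hnn hL0 hτ.le (by norm_num)
    (fun x hx => by
      have h3 : x ∈ Ioo a b := by rw [← hset]; exact hx
      rw [abs_le]
      constructor <;> linarith [h3.1, h3.2]) (fun x hx => (hcon x hx).le)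
  rw [← hJ] at k1
  have hT0 : 0 ≤ (G (Tm ((a + b) / 2) L 0)).re := hnn _ (Tm_le hL0 (by simp))
  set P := (G (Tm ((a + b) / 2) L 0)).re with hP
  have h4 : (S - τ ^ 2 - τ) / (1 + τ) ≤ L⁻¹ * J := by
    rw [hL, inv_div, div_le_iff₀ (by positivity)]
    have h5 : S / ((1 + τ) * N) * J * (1 + τ) = S * J / N := by
      field_simp
    rw [h5, le_div_iff₀ hpos]
    exact hJ1
  have h6 : (0.344 : ℝ) ≤ (S - τ ^ 2 - τ) / (1 + τ) := by
    rw [le_div_iff₀ (by positivity)]
    nlinarith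
  have h7 : 0.2752 ≤ π * P := by linarith
  have h8 : π * (2 * (1 / 25) / (P + 1 / 25)) = (2 * π * (1 / 25)) / (P + 1 / 25) := by ring
  rw [h8, le_div_iff₀ (by positivity)] at k2
  have p1 := Real.pi_gt_d2
  have p2 := Real.pi_lt_d2
  nlinarith

theorem conf_far {lam κ : ℝ} (hlam : 0 < lam) (hκ : 0 < κ) (hK : KerOK lam κ) {S τ : ℝ}
    (hS : S = √(κ / lam)) (hS0 : 0.358 < S) (hτ : 0 < τ) (hτ1 : τ ≤ 1 / 100) {Ω K : Set ℂ}
    (hvol1 : volume Ω ≤ 1) {R : ℝ} {F Φ : ℂ → ℂ} {c0 : ℝ} {z0 : ℂ}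
    (h : Conf Ω K (2 * (S - τ ^ 2)) R F Φ c0 z0) :
    ∃ c b w : ℂ, ‖c‖ = 1 ∧ b ∈ closure Ω ∧ w ∈ closure Ω ∧ 1 / 25 ≤ ‖w - b‖ ∧
      0 ≤ (c * (w - b)).re ∧ (c * (w - b)).re ≤ τ ∧ ∀ x ∈ K, 0 ≤ (c * (x - b)).re := by
  obtain ⟨hR, hF, hinj, hopen, hconv, hsub, hsup, hΦ, hc, hz0, hbig⟩ := h
  have hz00 : z0 ≠ 0 := by intro h; rw [h] at hz0; simp at hz0
  have hrot : ∀ ρ : ℝ, (fun z => z0 * z) '' ball (0 : ℂ) ρ = ball 0 ρ := by
    intro ρ
    ext w
    constructor
    · rintro ⟨z, hz, rfl⟩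
      rw [mem_ball_zero_iff] at *
      rw [norm_mul, hz0, one_mul]; exact hz
    · intro hw
      refine ⟨z0⁻¹ * w, ?_, by field_simp⟩
      rw [mem_ball_zero_iff] at *
      rw [norm_mul, norm_inv, hz0]; simpa using hw
  have hmaps : MapsTo (fun z => z0 * z) (ball (0 : ℂ) R) (ball 0 R) := by
    intro z hz
    rw [mem_ball_zero_iff] at *
    rw [norm_mul, hz0, one_mul]; exact hz
  set F1 : ℂ → ℂ := fun z => F (z0 * z) with hF1
  have hF1d : DifferentiableOn ℂ F1 (ball 0 R) := hF.comp (by fun_prop) hmaps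
  have hF1inj : InjOn F1 (ball 0 R) := by
    intro a ha b hb hab
    exact mul_left_cancel₀ hz00 (hinj (hmaps ha) (hmaps hb) hab)
  have hF1img : F1 '' ball 0 1 = F '' ball 0 1 := by
    rw [hF1, ← image_image F (fun z => z0 * z), hrot]
  have hz0m : z0 ∈ ball (0 : ℂ) R := sphere_sub hR hz0.le
  have hFder : HasDerivAt F (deriv F z0) z0 := (hF.differentiableAt (isOpen_ball.mem_nhds hz0m)).hasDerivAt
  have hΦder : HasDerivAt Φ (deriv Φ z0) z0 := (hΦ.differentiableAt (isOpen_ball.mem_nhds hz0m)).hasDerivAt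
  have hmulder : HasDerivAt (fun z : ℂ => z0 * z) z0 1 := by
    simpa using (hasDerivAt_id (1 : ℂ)).const_mul z0
  have hF1der : HasDerivAt F1 (deriv F z0 * z0) 1 := by
    have : HasDerivAt F (deriv F z0) (z0 * 1) := by rw [mul_one]; exact hFder
    exact this.comp (1 : ℂ) hmulder
  have hΦ1der : HasDerivAt (fun z => Φ (z0 * z)) (deriv Φ z0 * z0) 1 := by
    have : HasDerivAt Φ (deriv Φ z0) (z0 * 1) := by rw [mul_one]; exact hΦder
    exact this.comp (1 : ℂ) hmulder
  have hFne : deriv F z0 ≠ 0 :=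
    Pool.Agent.Helper469.Univalent.deriv_ne_zero_of_injOn isOpen_ball hF hinj hz0m
  set d : ℂ := deriv F z0 * z0 with hd
  have hdne : d ≠ 0 := mul_ne_zero hFne hz00
  have hdn : 0 < ‖d‖ := norm_pos_iff.2 hdne
  set c : ℂ := -(conj d / ‖d‖) with hcdef
  have hcn : ‖c‖ = 1 := by
    rw [hcdef, norm_neg, norm_div, RCLike.norm_conj, Complex.norm_real, Real.norm_eq_abs,
      abs_of_pos hdn, div_self hdn.ne']
  set G : ℂ → ℂ := fun z => c * (F1 z - F1 1) with hGdef
  have hGimg : G '' ball 0 1 = (fun w => c * (w - F1 1)) '' (F '' ball 0 1) := by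
    rw [← hF1img, image_image]
  have hvol : volume (G '' ball 0 1) = volume (F '' ball 0 1) := by
    rw [hGimg, vol_affine c (F1 1) hcn hopen.measurableSet]
  have hc0 : c ≠ 0 := by intro h; rw [h] at hcn; simp at hcn
  have hGopen : IsOpen (G '' ball 0 1) := by
    rw [hGimg]
    have : (fun w => c * (w - F1 1)) = ⇑((Homeomorph.subRight (F1 1)).trans (Homeomorph.mulLeft₀ c hc0)) := by
      funext w; simp
    rw [this]
    exact (Homeomorph.isOpenMap _) _ hopen
  have hGconv : Convex ℝ (G '' ball 0 1) := by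
    rw [hGimg]
    have h2 : (fun w => c * (w - F1 1)) = (fun w => (LinearMap.mulLeft ℝ c) w) ∘ (fun w => -(F1 1) + w) := by
      funext w
      simp only [Function.comp_apply, LinearMap.mulLeft_apply]
      ring
    rw [h2, image_comp]
    exact (hconv.translate _).linear_image (LinearMap.mulLeft ℝ c)
  have hG : DifferentiableOn ℂ G (ball 0 R) := (hF1d.sub_const _).const_mul _
  have hGinj : InjOn G (ball 0 R) := by
    intro a ha b hb hab
    have := mul_left_cancel₀ hc0 hab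
    exact hF1inj ha hb (by simpa using this)
  have hGder : HasDerivAt G (c * d) 1 := (hF1der.sub_const _).const_mul _
  have hcd : c * d = -((‖d‖ : ℝ) : ℂ) := by
    have h3 : conj d * d = ((‖d‖ ^ 2 : ℝ) : ℂ) := by
      rw [mul_comm, Complex.mul_conj, Complex.normSq_eq_norm_sq]
    have h4 : ((‖d‖ : ℝ) : ℂ) ≠ 0 := by exact_mod_cast hdn.ne'
    rw [hcdef]
    field_simp
    rw [h3]
    push_cast
    ring
  set ΦG : ℂ → ℂ := fun z => Φ (z0 * z) - conj (F1 1) * F1 z with hΦG
  have hΦGd : DifferentiableOn ℂ ΦG (ball 0 R) :=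
    (hΦ.comp (by fun_prop) hmaps).sub (hF1d.const_mul _)
  have hΦGder : HasDerivAt ΦG (deriv Φ z0 * z0 - conj (F1 1) * d) 1 := hΦ1der.sub (hF1der.const_mul _)
  have hcirc : ∀ z : ℂ, ‖z‖ = 1 → 2 * (ΦG z).re - (c0 - ‖F1 1‖ ^ 2) = ‖G z‖ ^ 2 := by
    intro z hz
    have h5 := hc (z0 * z) (by rw [norm_mul, hz0, hz, one_mul])
    have h6 : ‖G z‖ ^ 2 = ‖F1 z - F1 1‖ ^ 2 := by rw [hGdef]; beta_reduce; rw [norm_mul, hcn, one_mul]
    rw [h6]
    have h7 : ‖F1 z - F1 1‖ ^ 2 = ‖F1 z‖ ^ 2 - 2 * (conj (F1 1) * F1 z).re + ‖F1 1‖ ^ 2 := by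
      rw [Complex.sq_norm, Complex.sq_norm, Complex.sq_norm, Complex.normSq_sub]
      have : (F1 z * conj (F1 1)).re = (conj (F1 1) * F1 z).re := by rw [mul_comm]
      rw [this]
      ring
    rw [h7, hΦG]
    simp only [sub_re]
    have h8 : ‖F1 z‖ ^ 2 = 2 * (Φ (z0 * z)).re - c0 := h5.symm
    rw [h8]
    ring
  have hsupp : ∀ z : ℂ, ‖z‖ ≤ 1 → 0 ≤ (G z).re := by
    intro z hz
    have h9 := support hR hF1d hF1inj (by rw [hF1img]; exact hopen) (by rw [hF1img]; exact hconv) z hz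
    rw [hF1der.deriv] at h9
    have h10 : G z = ((-(1 / ‖d‖) : ℝ) : ℂ) * (conj d * (F1 z - F1 1)) := by
      rw [hGdef, hcdef]
      push_cast
      ring
    rw [h10, re_ofReal_mul]
    have : 0 < 1 / ‖d‖ := by positivity
    nlinarith
  have hG1 : G 1 = 0 := by rw [hGdef]; simp
  have hGd1 : deriv G 1 = -((‖d‖ : ℝ) : ℂ) := by rw [hGder.deriv, hcd]
  -- the profile
  have hsubR : closedBall (0 : ℂ) 1 ⊆ ball 0 R := fun z hz => sphere_sub hR (by simpa using hz)
  have hcc : ContinuousOn G (closedBall 0 1) := hG.continuousOn.mono hsubR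
  have hcont : Continuous (fun x : ℝ => G (cay x)) :=
    hcc.comp_continuous cay_cont fun x => by simp [cay_norm]
  have hGc1 : ContinuousAt G 1 := (hG.differentiableAt (isOpen_ball.mem_nhds (sphere_sub hR (by simp)))).continuousAt
  have hlim : ∀ l : Filter ℝ, Tendsto (fun x : ℝ => |x|) l atTop →
      Tendsto (fun x : ℝ => (G (cay x)).re) l (𝓝 0) := by
    intro l hl
    have := (Complex.continuous_re.tendsto _).comp (hGc1.tendsto.comp (cay_tendsto l hl))
    rw [hG1, zero_re] at this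
    exact this
  have hprof : Prof (fun x : ℝ => (G (cay x)).re) :=
    { cont := Complex.continuous_re.comp hcont
      nonneg := fun x => hsupp _ (cay_norm x).le
      bot := hlim _ tendsto_abs_atBot_atTop
      top := hlim _ tendsto_abs_atTop_atTop
      conn := fun t ht => arc hcc (hGinj.mono hsubR) hGopen hGconv hG1 ht }
  obtain ⟨i1, v1, i2, v2⟩ := ratio hR hG hΦGd hcirc hG1 hGd1
  have hen := energy_eq hR hG (hGinj.mono (ball_subset_ball hR.le))
  have hA1 : (volume (G '' ball 0 1)).toReal ≤ 1 := by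
    rw [hvol]
    exact ENNReal.toReal_le_of_le_ofReal zero_le_one (by
      rw [ENNReal.ofReal_one]
      exact (measure_mono hsub).trans hvol1)
  have h11 : deriv Φ z0 * z0 - conj (F1 1) * d = (deriv Φ z0 / deriv F z0 - conj (F z0)) * d := by
    have : F1 1 = F z0 := by rw [hF1]; beta_reduce; rw [mul_one]
    rw [this, hd]
    field_simp
  have hpi := Real.pi_pos
  obtain ⟨x, hx1, hx2⟩ := far_point (G := G) (τ := τ) (S := S) (A := (volume (G '' ball 0 1)).toReal)
    ((hG.mono (by rw [closure_ball _ one_ne_zero]; exact hsubR)).diffContOnCl)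
    hsupp hprof i1 i2 hlam hκ hK hS hS0 hτ hτ1 ENNReal.toReal_nonneg hA1 hen.le
    (by rw [v1]; positivity) (by
      have h12 : 2 * (S - τ ^ 2) * (2 * π * ‖d‖) = 2 * π * ((2 * (S - τ ^ 2)) * ‖d‖) := by ring
      rw [v1, v2, hΦGder.deriv, h11, h12, norm_mul (deriv Φ z0 / deriv F z0 - conj (F z0)) d]
      have h13 := mul_le_mul_of_nonneg_right hbig.le hdn.le
      have h14 : (0 : ℝ) < 2 * π := by positivity
      exact mul_le_mul_of_nonneg_left h13 h14.le)
  have hcl : ∀ z : ℂ, ‖z‖ ≤ 1 → F1 z ∈ closure Ω := by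
    intro z hz
    have h15 : F1 '' closure (ball 0 1) ⊆ closure (F1 '' ball 0 1) := by
      refine ContinuousOn.image_closure ?_
      rw [closure_ball _ one_ne_zero]
      exact hF1d.continuousOn.mono hsubR
    have h16 : F1 z ∈ F1 '' closure (ball 0 1) := mem_image_of_mem _ (by
      rw [closure_ball _ one_ne_zero, mem_closedBall_zero_iff]
      exact hz)
    have h17 := h15 h16
    rw [hF1img] at h17
    exact closure_mono hsub h17
  refine ⟨c, F1 1, F1 (cay x), hcn, hcl 1 (by simp), hcl _ (cay_norm x).le, ?_, hsupp _ (cay_norm x).le,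
    hx1, fun y hy => ?_⟩
  · have h18 : ‖G (cay x)‖ = ‖F1 (cay x) - F1 1‖ := by
      rw [hGdef]
      beta_reduce
      rw [norm_mul, hcn, one_mul]
    rw [← h18]
    exact hx2
  · have h19 := hsup hy
    rw [← hF1img] at h19
    obtain ⟨z, hz, rfl⟩ := h19
    exact hsupp z (by rw [mem_ball_zero_iff] at hz; exact hz.le)

end Pool.Agent.W39.TG
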