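import Mathlib
import Pool.Agent.W39.TG.A
import Pool.Agent.W39.TG.D2

/-!
# The limit argument

If for every compact part `K` of the convex domain and every `τ` there are two points of the closure
which are far apart and `τ`-close to a line which supports `K`, then the boundary contains a segment.
-/

set_option autoImplicit false

open Complex MeasureTheory Set Filter Topology Metric
open scoped ENNReal Real ComplexConjugate

namespace Pool.Agent.W39.TG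

open H781

/-- points of the closure whose distance from the complement is at least `1 / (n + 1)` -/
def KK (Ω : Set ℂ) (n : ℕ) : Set ℂ := {x | x ∈ closure Ω ∧ 1 / ((n : ℝ) + 1) ≤ infDist x Ωᶜ}

lemma KK_compact {Ω : Set ℂ} (hb : Bornology.IsBounded Ω) (n : ℕ) : IsCompact (KK Ω n) := by
  refine hb.isCompact_closure.of_isClosed_subset ?_ fun x hx => hx.1
  exact isClosed_closure.inter (isClosed_le continuous_const (continuous_infDist_pt _))

lemma KK_sub {Ω : Set ℂ} (n : ℕ) : KK Ω n ⊆ Ω := by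
  rintro x ⟨-, hx⟩
  by_contra hcon
  have h1 : infDist x Ωᶜ = 0 := infDist_zero_of_mem hcon
  rw [h1] at hx
  have : (0 : ℝ) < 1 / ((n : ℝ) + 1) := by positivity
  linarith

lemma KK_mono {Ω : Set ℂ} (n : ℕ) : KK Ω n ⊆ KK Ω (n + 1) := by
  rintro x ⟨h1, hx⟩
  refine ⟨h1, le_trans ?_ hx⟩
  push_cast
  gcongr
  linarith

lemma KK_exh {Ω : Set ℂ} (ho : IsOpen Ω) (hb : Bornology.IsBounded Ω) {x : ℂ} (hx : x ∈ Ω) :
    ∃ n, x ∈ KK Ω n := by
  have hne : (Ωᶜ).Nonempty := by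
    by_contra h
    rw [not_nonempty_iff_eq_empty, compl_empty_iff] at h
    rw [h] at hb
    exact NormedSpace.unbounded_univ ℝ ℂ hb
  have h1 : 0 < infDist x Ωᶜ := by
    rcases (infDist_nonneg (x := x) (s := Ωᶜ)).lt_or_eq with h | h
    · exact h
    · exfalso
      have := (ho.isClosed_compl.mem_iff_infDist_zero hne).2 h.symm
      exact this hx
  obtain ⟨n, hn⟩ := exists_nat_one_div_lt h1
  exact ⟨n, subset_closure hx, hn.le⟩

/-- far points near a supporting line of `K` -/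
def EE (Ω K : Set ℂ) (τ : ℝ) : Set (ℂ × ℂ × ℂ) :=
  {q | ‖q.1‖ = 1 ∧ q.2.1 ∈ closure Ω ∧ q.2.2 ∈ closure Ω ∧ 1 / 25 ≤ ‖q.2.2 - q.2.1‖ ∧
      0 ≤ (q.1 * (q.2.2 - q.2.1)).re ∧ (q.1 * (q.2.2 - q.2.1)).re ≤ τ ∧
      ∀ x ∈ K, 0 ≤ (q.1 * (x - q.2.1)).re}

lemma EE_closed (Ω K : Set ℂ) (τ : ℝ) : IsClosed (EE Ω K τ) := by
  have h1 : IsClosed {q : ℂ × ℂ × ℂ | ‖q.1‖ = 1} := isClosed_eq (by fun_prop) (by fun_prop)
  have h2 : IsClosed {q : ℂ × ℂ × ℂ | q.2.1 ∈ closure Ω} :=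
    isClosed_closure.preimage (by fun_prop)
  have h3 : IsClosed {q : ℂ × ℂ × ℂ | q.2.2 ∈ closure Ω} :=
    isClosed_closure.preimage (by fun_prop)
  have h4 : IsClosed {q : ℂ × ℂ × ℂ | 1 / 25 ≤ ‖q.2.2 - q.2.1‖} :=
    isClosed_le (by fun_prop) (by fun_prop)
  have h5 : IsClosed {q : ℂ × ℂ × ℂ | 0 ≤ (q.1 * (q.2.2 - q.2.1)).re} :=
    isClosed_le continuous_const (Complex.continuous_re.comp (by fun_prop))
  have h6 : IsClosed {q : ℂ × ℂ × ℂ | (q.1 * (q.2.2 - q.2.1)).re ≤ τ} :=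
    isClosed_le (Complex.continuous_re.comp (by fun_prop)) continuous_const
  have h7 : IsClosed {q : ℂ × ℂ × ℂ | ∀ x ∈ K, 0 ≤ (q.1 * (x - q.2.1)).re} := by
    have : {q : ℂ × ℂ × ℂ | ∀ x ∈ K, 0 ≤ (q.1 * (x - q.2.1)).re} =
        ⋂ x ∈ K, {q : ℂ × ℂ × ℂ | 0 ≤ (q.1 * (x - q.2.1)).re} := by
      ext q
      simp
    rw [this]
    exact isClosed_biInter fun x _ =>
      isClosed_le continuous_const (Complex.continuous_re.comp (by fun_prop))
  exact h1.inter (h2.inter (h3.inter (h4.inter (h5.inter (h6.inter h7)))))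

lemma EE_compact {Ω : Set ℂ} (hb : Bornology.IsBounded Ω) (K : Set ℂ) (τ : ℝ) :
    IsCompact (EE Ω K τ) := by
  have h1 : IsCompact (sphere (0 : ℂ) 1 ×ˢ (closure Ω ×ˢ closure Ω)) :=
    (isCompact_sphere _ _).prod (hb.isCompact_closure.prod hb.isCompact_closure)
  refine h1.of_isClosed_subset (EE_closed Ω K τ) ?_
  rintro q ⟨h2, h3, h4, -⟩
  exact ⟨by simpa using h2, h3, h4⟩

theorem flat_of_far {Ω : Set ℂ} (hopen : IsOpen Ω) (hconv : Convex ℝ Ω)
    (hb : Bornology.IsBounded Ω)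
    (h : ∀ K : Set ℂ, IsCompact K → K ⊆ Ω → ∀ τ : ℝ, 0 < τ → τ ≤ 1 / 100 → (EE Ω K τ).Nonempty) :
    ∃ b w : ℂ, 1 / 25 ≤ dist b w ∧ segment ℝ b w ⊆ frontier Ω := by
  have hne := IsCompact.nonempty_iInter_of_sequence_nonempty_isCompact_isClosed
    (fun n : ℕ => EE Ω (KK Ω n) (1 / ((n : ℝ) + 100)))
    (by
      rintro n q ⟨h1, h2, h3, h4, h5, h6, h7⟩
      refine ⟨h1, h2, h3, h4, h5, h6.trans ?_, fun x hx => h7 x (KK_mono n hx)⟩
      push_cast
      gcongr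
      linarith)
    (fun n => h _ (KK_compact hb n) (KK_sub n) _ (by positivity) (by
      rw [div_le_div_iff₀ (by positivity) (by norm_num)]
      have : (0 : ℝ) ≤ n := by positivity
      linarith))
    (EE_compact hb _ _) (fun n => EE_closed _ _ _)
  obtain ⟨⟨c, b, w⟩, hq⟩ := hne
  rw [mem_iInter] at hq
  obtain ⟨hc, hbm, hwm, hbw, hnn, -, -⟩ := hq 0
  simp only at hc hbm hwm hbw hnn
  have hle : (c * (w - b)).re ≤ 0 := by
    have h1 : Tendsto (fun n : ℕ => 1 / ((n : ℝ) + 100)) atTop (𝓝 0) := by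
      have h2 : Tendsto (fun n : ℕ => (n : ℝ) + 100) atTop atTop :=
        tendsto_atTop_add_const_right _ _ tendsto_natCast_atTop_atTop
      exact h2.const_div_atTop 1
    exact ge_of_tendsto' h1 fun n => (hq n).2.2.2.2.2.1
  have hz : (c * (w - b)).re = 0 := le_antisymm hle hnn
  have hsup : ∀ x ∈ Ω, 0 ≤ (c * (x - b)).re := by
    intro x hx
    obtain ⟨n, hn⟩ := KK_exh hopen hb hx
    exact (hq n).2.2.2.2.2.2 x hn
  refine ⟨b, w, by rw [dist_comm, dist_eq_norm]; exact hbw, fun q hqs => ?_⟩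
  have hqc : q ∈ closure Ω := hconv.closure.segment_subset hbm hwm hqs
  rw [frontier, hopen.interior_eq]
  refine ⟨hqc, fun hqΩ => ?_⟩
  have hq0 : (c * (q - b)).re = 0 := by
    rw [segment_eq_image] at hqs
    obtain ⟨t, -, rfl⟩ := hqs
    have : c * ((1 - t) • b + t • w - b) = (t : ℂ) * (c * (w - b)) := by
      simp only [Complex.real_smul]
      push_cast
      ring
    simp only [this, re_ofReal_mul, hz, mul_zero]
  obtain ⟨ε, hε, hball⟩ := Metric.isOpen_iff.1 hopen q hqΩ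
  have hmem : q - (ε / 2 : ℝ) * conj c ∈ ball q ε := by
    rw [mem_ball, dist_eq_norm]
    have : q - (ε / 2 : ℝ) * conj c - q = -((ε / 2 : ℝ) * conj c) := by ring
    rw [this, norm_neg, norm_mul, RCLike.norm_conj, hc, Complex.norm_real, Real.norm_eq_abs,
      abs_of_pos (by positivity)]
    linarith
  have h3 := hsup _ (hball hmem)
  have h4 : c * (q - (ε / 2 : ℝ) * conj c - b) = c * (q - b) - ((ε / 2 : ℝ) : ℂ) * (c * conj c) := by
    ring
  have h5 : c * conj c = ((1 : ℝ) : ℂ) := by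
    rw [Complex.mul_conj, Complex.normSq_eq_norm_sq, hc, one_pow]
  rw [h4, h5, sub_re, hq0, re_ofReal_mul, ofReal_re] at h3
  linarith

/-- the main theorem, for a domain with `Δ u = -1` -/
theorem flat_main {Ω : Set ℂ} (hopen : IsOpen Ω) (hconv : Convex ℝ Ω)
    (hb : Bornology.IsBounded Ω) (hvol : volume Ω ≤ 1)
    (hopt : ∀ m, GradVal m → 0 < m → ∀ ε : ℝ, 0 < ε → ∃ (u : ℂ → ℝ) (x : ℂ), ContinuousOn u (closure Ω) ∧
      ContDiffOn ℝ 2 u Ω ∧ (∀ x ∈ Ω, Laplacian.laplacian u x = -1) ∧ (∀ x ∈ frontier Ω, u x = 0) ∧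
      x ∈ Ω ∧ m - ε < ‖fderiv ℝ u x‖) :
    ∃ b w : ℂ, 1 / 25 ≤ dist b w ∧ segment ℝ b w ⊆ frontier Ω := by
  obtain ⟨lam, κ, hlam, hκ, hK, hnum, hlow⟩ := ker_exact
  refine flat_of_far hopen hconv hb fun K hKc hKΩ τ hτ hτ1 => ?_
  have hτ2 : 0 < τ ^ 2 / 2 := by positivity
  obtain ⟨m, hm, hmS⟩ := hlow (τ ^ 2 / 2) hτ2
  have hτ3 : τ ^ 2 ≤ 1 / 10000 := by nlinarith
  obtain ⟨u, x, h1, h2, h3, h4, hx, h5⟩ := hopt m hm (by linarith) (τ ^ 2 / 2) hτ2
  obtain ⟨ρ, F, Φ, c0, z0, hconf⟩ := near_max hopen hconv hb h1 h2 h3 h4 hx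
    (M := 2 * (√(κ / lam) - τ ^ 2)) (by linarith) (by linarith) hKc hKΩ
  obtain ⟨c, b, w, g1, g2, g3, g4, g5, g6, g7⟩ := conf_far hlam hκ hK rfl (by linarith) hτ hτ1 hvol hconf
  exact ⟨(c, b, w), g1, g2, g3, g4, g5, g6, g7⟩

end Pool.Agent.W39.TG
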